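import Pool.Agent.H2.SPL.UniversalGroupProof

set_option autoImplicit false

open Topology Filter Set

universe u

namespace Pool.Agent.Results.MP_501377_al.UniversalGroup

/-!
A metrically universal separable group with left-invariant metric (Shkarin's question).

The universal group is `GG`, the group of all bijective isometries of a complete separable metric
space `XX` with a dense sequence `v 0, v 1, …`, with the left-invariant metric
`dG g g' = sup_n dist (g (v n)) (g' (v n)) / Lc n`, where `Lc 0 = 1` and the weights `Lc n`
increase to infinity (and faster than `dist (v 0) (v n)`), so that `dG` induces pointwise
convergence.

* `pat` is the matrix of distances of the points `v n`.  It is generic: every Katetov function on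
  `v 0, …, v m` is, up to `r`, the restriction of the distances of `v n` for arbitrarily large
  `n`, the distances of `v n` to the points in between being the free ones (`pat_generic`).
* For a separable group `H` with a left-invariant metric we build an `H`-invariant pseudometric on
  `H × ℕ` which extends `pat` on `{1} × ℕ`, in which `(h, 0)` has distance `dist 1 h` to
  `(1, 0)`, in which `(h, i)` has distance at most `Lc i * dist 1 h` to `(1, i)`, and in which
  `{1} × ℕ` is dense (`exists_limit`).  Then `H` acts on `XX` by isometries, and the weighted
  supremum distance of the isometries given by `h` and `k` is exactly `dist h k`.
* The points are added one at a time (`St.extend`).  The new point is put close to a given point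
  `x = (h0, j0)` by the Katetov function
  `y ↦ min (min_c (pat (n + 1) c + D (c, y))) (ρ + inf_k (Lc (n + 1) * dist 1 k + D (y, k x)))`
  (`St.target`); because of the second term the new point moves in a Lipschitz way under `H`,
  although `x` itself only moves continuously.  Between two such steps the points are
  added freely (`St.free`, `St.block`).
-/

/-- **Shkarin's question has a positive answer**: there is a separable group `G` with a
left-invariant metric (inducing a group topology) such that every separable group with a
left-invariant metric (inducing a group topology) is isometrically isomorphic to a subgroup
of `G`. -/
theorem result : ∃ (G : Type) (_ : Group G) (_ : MetricSpace G),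
    (∀ a x y : G, dist (a * x) (a * y) = dist x y) ∧ IsTopologicalGroup G ∧
    TopologicalSpace.SeparableSpace G ∧
    ∀ (H : Type u) [Group H] [MetricSpace H],
      (∀ a x y : H, dist (a * x) (a * y) = dist x y) → IsTopologicalGroup H →
      TopologicalSpace.SeparableSpace H → ∃ φ : H →* G, Isometry φ :=
  result_proof

end Pool.Agent.Results.MP_501377_al.UniversalGroup
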